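import Mathlib

/-!
Bump functions on the right half plane: holomorphic functions `bump k` with `∑ |bump k| ≤ 1`, which
are almost `1` near `exp (- sc k)` (in the scale of the logarithm) and almost disjoint.
-/

set_option autoImplicit false

open Set Filter Topology

namespace Pool.Agent.H272.SS

/-- the centres -/
noncomputable def sc (k : ℕ) : ℝ := 7 * ((k : ℝ) + 2) ^ 2

/-- the bump functions -/
noncomputable def bump (k : ℕ) (w : ℂ) : ℂ :=
  ((1 - 1 / ((k : ℝ) + 2) : ℝ) : ℂ) *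
    Complex.exp (-((Complex.log w + (sc k : ℝ)) ^ 2 / ((10 * ((k : ℝ) + 2) : ℝ) : ℂ)))

theorem eta_nonneg (k : ℕ) : 0 ≤ 1 - 1 / ((k : ℝ) + 2) := by
  have h : (0 : ℝ) ≤ k := Nat.cast_nonneg k
  rw [sub_nonneg, div_le_one (by positivity)]
  linarith

theorem eta_pos (k : ℕ) : 0 < 1 - 1 / ((k : ℝ) + 2) := by
  have h : (0 : ℝ) ≤ k := Nat.cast_nonneg k
  rw [sub_pos, div_lt_one (by positivity)]
  linarith

theorem norm_bump (k : ℕ) (w : ℂ) : ‖bump k w‖ = (1 - 1 / ((k : ℝ) + 2)) *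
    Real.exp ((w.arg ^ 2 - (Real.log ‖w‖ + sc k) ^ 2) / (10 * ((k : ℝ) + 2))) := by
  rw [bump, norm_mul, Complex.norm_real, Real.norm_of_nonneg (eta_nonneg k), Complex.norm_exp,
    Complex.neg_re, Complex.div_ofReal_re, pow_two, Complex.mul_re, Complex.add_re, Complex.add_im,
    Complex.log_re, Complex.log_im, Complex.ofReal_re, Complex.ofReal_im]
  congr 2
  ring

theorem bump_ne (k : ℕ) (w : ℂ) : bump k w ≠ 0 := by
  rw [bump]
  refine mul_ne_zero ?_ (Complex.exp_ne_zero _)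
  exact_mod_cast (eta_pos k).ne'

theorem arg_sq_le {w : ℂ} (hw : 0 < w.re) : w.arg ^ 2 ≤ 5 / 2 := by
  have h1 : |w.arg| < Real.pi / 2 := Complex.abs_arg_lt_pi_div_two_iff.2 (Or.inl hw)
  have h2 : Real.pi < 3.15 := Real.pi_lt_d2
  have h3 : |w.arg| ≤ 1.575 := by linarith
  rw [← sq_abs]
  nlinarith [abs_nonneg w.arg]

theorem sc_sub {k j : ℕ} (h : j ≠ k) : 7 * ((k : ℝ) + j + 4) ≤ |sc k - sc j| := by
  have h1 : sc k - sc j = 7 * ((k : ℝ) - j) * (k + j + 4) := by unfold sc; ring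
  rw [h1, abs_mul, abs_mul, abs_of_pos (by norm_num : (0 : ℝ) < 7),
    abs_of_nonneg (by positivity : (0 : ℝ) ≤ (k : ℝ) + j + 4)]
  have h2 : (1 : ℝ) ≤ |(k : ℝ) - j| := by
    have h3 : ((k : ℤ) - j) ≠ 0 := by omega
    have h4 := Int.one_le_abs h3
    have h5 : ((1 : ℤ) : ℝ) ≤ ((|(k : ℤ) - j| : ℤ) : ℝ) := Int.cast_le.2 h4
    simpa using h5
  have h6 : (0 : ℝ) ≤ (k : ℝ) + j + 4 := by positivity
  nlinarith

theorem exp_neg_nat_le (n : ℕ) : Real.exp (-(n : ℝ)) ≤ (1 / 2) ^ n := by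
  have h1 : Real.exp (-(n : ℝ)) = (Real.exp (-1)) ^ n := by
    rw [← Real.exp_nat_mul]; ring_nf
  rw [h1]
  apply pow_le_pow_left₀ (Real.exp_pos _).le
  have h2 := Real.add_one_le_exp (1 : ℝ)
  rw [Real.exp_neg, one_div]
  exact inv_anti₀ (by norm_num) (by linarith)

theorem bump_far {k j : ℕ} {w : ℂ} (hw : 0 < w.re) (hjk : j ≠ k)
    (h : |sc k - sc j| ≤ 2 * |Real.log ‖w‖ + sc j|) : ‖bump j w‖ ≤ (1 / 2) ^ (k + j + 4) := by
  have h1 := sc_sub hjk
  have h2 := arg_sq_le hw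
  have hX : (4 : ℝ) ≤ (k : ℝ) + j + 4 := by
    have : (0 : ℝ) ≤ k := Nat.cast_nonneg k
    have : (0 : ℝ) ≤ j := Nat.cast_nonneg j
    linarith
  have hj : (0 : ℝ) ≤ j := Nat.cast_nonneg j
  have hk : (0 : ℝ) ≤ k := Nat.cast_nonneg k
  have h3 : (7 * ((k : ℝ) + j + 4) / 2) ^ 2 ≤ (Real.log ‖w‖ + sc j) ^ 2 := by
    rw [← sq_abs (Real.log ‖w‖ + sc j)]
    apply pow_le_pow_left₀ (by positivity)
    linarith
  have h4 : (w.arg ^ 2 - (Real.log ‖w‖ + sc j) ^ 2) / (10 * ((j : ℝ) + 2)) ≤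
      -(((k + j + 4 : ℕ) : ℝ)) := by
    rw [div_le_iff₀ (by positivity)]
    push_cast
    nlinarith
  rw [norm_bump]
  calc (1 - 1 / ((j : ℝ) + 2)) *
        Real.exp ((w.arg ^ 2 - (Real.log ‖w‖ + sc j) ^ 2) / (10 * ((j : ℝ) + 2)))
      ≤ 1 * Real.exp (-(((k + j + 4 : ℕ) : ℝ))) := by
        refine mul_le_mul ?_ (Real.exp_le_exp.2 h4) (Real.exp_pos _).le zero_le_one
        have : (0 : ℝ) ≤ 1 / ((j : ℝ) + 2) := by positivity
        linarith
    _ ≤ (1 / 2) ^ (k + j + 4) := by rw [one_mul]; exact exp_neg_nat_le _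

theorem bump_near (k : ℕ) {w : ℂ} (hw : 0 < w.re) : ‖bump k w‖ ≤ 1 - (1 / 2) ^ (k + 3) := by
  have hk : (0 : ℝ) ≤ k := Nat.cast_nonneg k
  obtain ⟨x, hx⟩ : ∃ x : ℝ, x = 1 / (4 * ((k : ℝ) + 2)) := ⟨_, rfl⟩
  have hx0 : 0 < x := by rw [hx]; positivity
  have hx1 : x ≤ 1 / 8 := by
    rw [hx, div_le_div_iff₀ (by positivity) (by norm_num)]
    linarith
  have e1 : 1 - 1 / ((k : ℝ) + 2) = 1 - 4 * x := by
    rw [hx]; field_simp
  have h2 := arg_sq_le hw
  have h3 : (w.arg ^ 2 - (Real.log ‖w‖ + sc k) ^ 2) / (10 * ((k : ℝ) + 2)) ≤ x := by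
    rw [hx, div_le_div_iff₀ (by positivity) (by positivity)]
    nlinarith [sq_nonneg (Real.log ‖w‖ + sc k)]
  have h4 : Real.exp x ≤ 1 / (1 - x) := by
    have h5 := Real.one_sub_le_exp_neg x
    rw [le_div_iff₀ (by linarith)]
    have h6 : Real.exp x * Real.exp (-x) = 1 := by rw [← Real.exp_add]; simp
    nlinarith [Real.exp_pos x]
  have h7 : (1 - 4 * x) * (1 / (1 - x)) ≤ 1 - 3 * x := by
    rw [mul_one_div, div_le_iff₀ (by linarith)]
    nlinarith
  have h8 : ((1 : ℝ) / 2) ^ (k + 3) ≤ 3 * x := by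
    have h9 : ((k : ℝ) + 2) ≤ 2 ^ (k + 1) := by
      have : k + 2 ≤ 2 ^ (k + 1) := by
        have := Nat.lt_two_pow_self (n := k + 1)
        omega
      exact_mod_cast this
    rw [hx, div_pow, one_pow, mul_one_div, div_le_div_iff₀ (by positivity) (by positivity),
      pow_add]
    rw [pow_add] at h9
    norm_num at h9 ⊢
    nlinarith
  rw [norm_bump, e1]
  calc (1 - 4 * x) * Real.exp ((w.arg ^ 2 - (Real.log ‖w‖ + sc k) ^ 2) / (10 * ((k : ℝ) + 2)))
      ≤ (1 - 4 * x) * (1 / (1 - x)) := by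
        refine mul_le_mul_of_nonneg_left ((Real.exp_le_exp.2 h3).trans h4) (by linarith)
    _ ≤ 1 - 3 * x := h7
    _ ≤ 1 - (1 / 2) ^ (k + 3) := by linarith

theorem sc_tendsto : Tendsto sc atTop atTop := by
  unfold sc
  refine Tendsto.const_mul_atTop (by norm_num) ?_
  refine (tendsto_pow_atTop (by norm_num)).comp ?_
  exact tendsto_atTop_add_const_right _ _ tendsto_natCast_atTop_atTop

/-- the closest centre -/
theorem exists_closest (t : ℝ) : ∃ k, ∀ j, |sc k - sc j| ≤ 2 * |t + sc j| := by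
  have h1 : Tendsto (fun j => |t + sc j|) cofinite atTop := by
    rw [Nat.cofinite_eq_atTop]
    exact tendsto_abs_atTop_atTop.comp (tendsto_atTop_add_const_left _ _ sc_tendsto)
  obtain ⟨k, hk⟩ := h1.exists_forall_le
  refine ⟨k, fun j => ?_⟩
  have h2 : sc k - sc j = (t + sc k) - (t + sc j) := by ring
  rw [h2]
  have h3 := abs_sub (t + sc k) (t + sc j)
  have h4 : |t + sc k| ≤ |t + sc j| := hk j
  linarith

theorem sum_geo (k : ℕ) (s : Finset ℕ) : ∑ j ∈ s, ((1 : ℝ) / 2) ^ (k + j + 4) ≤ (1 / 2) ^ (k + 3) := by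
  have h1 : HasSum (fun j : ℕ => ((1 : ℝ) / 2) ^ (k + j + 4)) ((1 / 2) ^ (k + 3)) := by
    have h2 := (hasSum_geometric_two).mul_left (((1 : ℝ) / 2) ^ (k + 4))
    have e1 : ((1 : ℝ) / 2) ^ (k + 4) * 2 = (1 / 2) ^ (k + 3) := by
      rw [pow_succ _ (k + 3)]; ring
    have e2 : (fun j : ℕ => ((1 : ℝ) / 2) ^ (k + j + 4)) =
        fun j : ℕ => ((1 : ℝ) / 2) ^ (k + 4) * (1 / 2) ^ j := by
      funext j
      rw [← pow_add]
      congr 1
      omega
    rw [e2, ← e1]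
    exact h2
  exact sum_le_hasSum s (fun j _ => by positivity) h1

/-- `k` is the closest centre -/
def Closest (k : ℕ) (w : ℂ) : Prop :=
  ∀ j, j ≠ k → |sc k - sc j| ≤ 2 * |Real.log ‖w‖ + sc j|

theorem sum_far {k : ℕ} {w : ℂ} (hw : 0 < w.re) (h : Closest k w) {s : Finset ℕ} (hs : k ∉ s) :
    ∑ j ∈ s, ‖bump j w‖ ≤ (1 / 2) ^ (k + 3) := by
  refine le_trans (Finset.sum_le_sum fun j hj => ?_) (sum_geo k s)
  have hne : j ≠ k := fun hjk => hs (hjk ▸ hj)
  exact bump_far hw hne (h j hne)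

theorem sum_le_one {w : ℂ} (hw : 0 < w.re) (s : Finset ℕ) : ∑ j ∈ s, ‖bump j w‖ ≤ 1 := by
  classical
  obtain ⟨k, hk⟩ := exists_closest (Real.log ‖w‖)
  have h1 : ∑ j ∈ s, ‖bump j w‖ ≤ ∑ j ∈ insert k (s.erase k), ‖bump j w‖ := by
    refine Finset.sum_le_sum_of_subset_of_nonneg ?_ (fun _ _ _ => norm_nonneg _)
    intro j hj
    by_cases hjk : j = k
    · rw [hjk]; exact Finset.mem_insert_self _ _
    · exact Finset.mem_insert_of_mem (Finset.mem_erase.2 ⟨hjk, hj⟩)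
  rw [Finset.sum_insert (Finset.notMem_erase k s)] at h1
  have h2 := sum_far hw (fun j _ => hk j) (Finset.notMem_erase k s)
  have h3 := bump_near k hw
  linarith

theorem summable_bump {w : ℂ} (hw : 0 < w.re) : Summable fun j => ‖bump j w‖ :=
  summable_of_sum_le (fun _ => norm_nonneg _) (sum_le_one hw)

theorem tsum_bump_le {w : ℂ} (hw : 0 < w.re) : ∑' j, ‖bump j w‖ ≤ 1 :=
  (summable_bump hw).tsum_le_of_sum_le (sum_le_one hw)

theorem closest_of {k : ℕ} {w : ℂ} {M : ℝ} (h1 : |Real.log ‖w‖ + sc k| ≤ M)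
    (h2 : 2 * M ≤ 7 * ((k : ℝ) + 4)) : Closest k w := by
  intro j hj
  have h3 := sc_sub hj
  have h4 : sc k - sc j = (Real.log ‖w‖ + sc k) - (Real.log ‖w‖ + sc j) := by ring
  have h5 := abs_sub (Real.log ‖w‖ + sc k) (Real.log ‖w‖ + sc j)
  rw [← h4] at h5
  have hj : (0 : ℝ) ≤ j := Nat.cast_nonneg j
  linarith

variable {X : Type*} [NormedAddCommGroup X] [NormedSpace ℂ X] [CompleteSpace X]

theorem summable_smul {w : ℂ} (hw : 0 < w.re) {v : ℕ → X} (hv : ∀ j, ‖v j‖ ≤ 1) :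
    Summable fun j => bump j w • v j := by
  refine Summable.of_norm_bounded (summable_bump hw) fun j => ?_
  rw [norm_smul]
  exact mul_le_of_le_one_right (norm_nonneg _) (hv j)

theorem norm_tsum_le {w : ℂ} (hw : 0 < w.re) {v : ℕ → X} (hv : ∀ j, ‖v j‖ ≤ 1) :
    ‖∑' j, bump j w • v j‖ ≤ 1 := by
  refine (tsum_of_norm_bounded (summable_bump hw).hasSum fun j => ?_).trans (tsum_bump_le hw)
  rw [norm_smul]
  exact mul_le_of_le_one_right (norm_nonneg _) (hv j)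

theorem norm_tsum_lt {w : ℂ} (hw : 0 < w.re) {v : ℕ → X} (hv : ∀ j, ‖v j‖ < 1) :
    ‖∑' j, bump j w • v j‖ < 1 := by
  have h1 : Summable fun j => ‖bump j w‖ * ‖v j‖ := by
    refine Summable.of_nonneg_of_le (fun _ => by positivity) (fun j => ?_) (summable_bump hw)
    exact mul_le_of_le_one_right (norm_nonneg _) (hv j).le
  have h2 : ‖∑' j, bump j w • v j‖ ≤ ∑' j, ‖bump j w‖ * ‖v j‖ :=
    tsum_of_norm_bounded h1.hasSum fun j => by rw [norm_smul]
  refine h2.trans_lt (lt_of_lt_of_le ?_ (tsum_bump_le hw))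
  refine Summable.tsum_lt_tsum (i := 0) (fun j => ?_) ?_ h1 (summable_bump hw)
  · exact mul_le_of_le_one_right (norm_nonneg _) (hv j).le
  · exact mul_lt_of_lt_one_right (norm_pos_iff.2 (bump_ne 0 w)) (hv 0)

theorem tsum_near {k : ℕ} {w : ℂ} (hw : 0 < w.re) (h : Closest k w) {v : ℕ → X}
    (hv : ∀ j, ‖v j‖ ≤ 1) : ‖∑' j, bump j w • v j - bump k w • v k‖ ≤ (1 / 2) ^ (k + 3) := by
  classical
  have h1 := (summable_smul hw hv).hasSum
  have h2 : Tendsto (fun s : Finset ℕ => ∑ j ∈ s, bump j w • v j - bump k w • v k) atTop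
      (𝓝 (∑' j, bump j w • v j - bump k w • v k)) := Tendsto.sub_const h1 _
  refine le_of_tendsto h2.norm ?_
  filter_upwards [eventually_ge_atTop ({k} : Finset ℕ)] with s hs
  have hk : k ∈ s := hs (Finset.mem_singleton_self k)
  rw [← Finset.add_sum_erase s _ hk, add_sub_cancel_left]
  refine (norm_sum_le _ _).trans ((Finset.sum_le_sum fun j _ => ?_).trans
    (sum_far hw h (Finset.notMem_erase k s)))
  rw [norm_smul]
  exact mul_le_of_le_one_right (norm_nonneg _) (hv j)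

/-- differentiability -/
theorem diff_bump (k : ℕ) {w : ℂ} (hw : 0 < w.re) : DifferentiableAt ℂ (bump k) w := by
  have h1 : DifferentiableAt ℂ Complex.log w := Complex.differentiableAt_log (Or.inl hw)
  unfold bump
  exact ((((h1.add_const _).pow 2).div_const _).neg.cexp).const_mul _

/-- the value near the centre -/
theorem bump_center (k : ℕ) {v : ℂ} (hv : v ≠ 0) :
    bump k ((Real.exp (-sc k) : ℝ) * v) = ((1 - 1 / ((k : ℝ) + 2) : ℝ) : ℂ) *
      Complex.exp (-(Complex.log v ^ 2 / ((10 * ((k : ℝ) + 2) : ℝ) : ℂ))) := by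
  rw [bump, Complex.log_ofReal_mul (Real.exp_pos _) hv, Real.log_exp]
  congr 4
  push_cast
  ring

theorem bump_tendsto {v : ℂ} (hv : v ≠ 0) :
    Tendsto (fun k => bump k ((Real.exp (-sc k) : ℝ) * v)) atTop (𝓝 1) := by
  have h1 : Tendsto (fun k : ℕ => 1 / ((k : ℝ) + 2)) atTop (𝓝 0) := by
    refine Tendsto.div_atTop tendsto_const_nhds ?_
    exact tendsto_atTop_add_const_right _ _ tendsto_natCast_atTop_atTop
  have h2 : Tendsto (fun k : ℕ => ((1 - 1 / ((k : ℝ) + 2) : ℝ) : ℂ)) atTop (𝓝 ((1 : ℝ) : ℂ)) := by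
    have := h1.const_sub 1
    rw [sub_zero] at this
    exact (Complex.continuous_ofReal.tendsto _).comp this
  have h3 : Tendsto (fun k : ℕ => -(Complex.log v ^ 2 / ((10 * ((k : ℝ) + 2) : ℝ) : ℂ))) atTop
      (𝓝 0) := by
    have h4 : Tendsto (fun k : ℕ => ((1 / ((k : ℝ) + 2) : ℝ) : ℂ)) atTop (𝓝 ((0 : ℝ) : ℂ)) :=
      (Complex.continuous_ofReal.tendsto _).comp h1
    have h5 := (h4.const_mul (-(Complex.log v ^ 2 / 10)))
    rw [Complex.ofReal_zero, mul_zero] at h5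
    refine h5.congr fun k => ?_
    have hk : ((k : ℂ) + 2) ≠ 0 := by
      have : (0 : ℝ) < (k : ℝ) + 2 := by positivity
      exact_mod_cast this.ne'
    push_cast
    field_simp
  have h6 := h2.mul h3.cexp
  rw [Complex.exp_zero, Complex.ofReal_one, mul_one] at h6
  exact h6.congr fun k => (bump_center k hv).symm

theorem closest_center {v : ℂ} (hv : v ≠ 0) :
    ∀ᶠ k : ℕ in atTop, Closest k ((Real.exp (-sc k) : ℝ) * v) := by
  have h1 : Tendsto (fun k : ℕ => 7 * ((k : ℝ) + 4)) atTop atTop :=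
    Tendsto.const_mul_atTop (by norm_num)
      (tendsto_atTop_add_const_right _ _ tendsto_natCast_atTop_atTop)
  filter_upwards [h1.eventually_ge_atTop (2 * |Real.log ‖v‖|)] with k hk
  refine closest_of (M := |Real.log ‖v‖|) ?_ hk
  rw [norm_mul, Complex.norm_real, Real.norm_of_nonneg (Real.exp_pos _).le,
    Real.log_mul (Real.exp_pos _).ne' (norm_ne_zero_iff.2 hv), Real.log_exp]
  apply le_of_eq
  congr 1
  ring

end Pool.Agent.H272.SS
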