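import Mathlib
import Pool.Agent.H303.CB.Fin
import Pool.Agent.H272.SS.Bump

/-!
Self-similarity data: a holomorphic map `Φ` of `D` into the ball and maps `P k` of the ball into `D`,
converging to `p`, with `Φ ∘ P k → id`.
-/

set_option autoImplicit false

open Metric Set Filter Topology

namespace Pool.Agent.H272.SS

open Pool.Agent.W732.Cor (mv)
open Pool.Agent.H303.CB

/-- Series of holomorphic functions. -/
theorem diff_tsum {X : Type*} [NormedAddCommGroup X] [NormedSpace ℂ X] {D : Set X} (hD : IsOpen D)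
    (u : X → ℂ) (hu : DifferentiableOn ℂ u D) (hu' : ∀ x ∈ D, 0 < (u x).re) (v : ℕ → X → ℂ)
    (hv : ∀ j, DifferentiableOn ℂ (v j) D) (hb : ∀ j, ∀ x ∈ D, ‖v j x‖ ≤ 1) :
    DifferentiableOn ℂ (fun x => ∑' j, bump j (u x) • v j x) D := by
  set 𝒰 : Ultrafilter ℕ := Ultrafilter.of atTop with h𝒰
  have hle : (𝒰 : Filter ℕ) ≤ atTop := Ultrafilter.of_le _
  have h1 : ∀ n : ℕ, DifferentiableOn ℂ
      (fun x => ∑ j ∈ Finset.range n, bump j (u x) • v j x) D := by
    intro n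
    refine DifferentiableOn.fun_sum fun j _ => ?_
    intro x hx
    have h1 : DifferentiableWithinAt ℂ (fun x => bump j (u x)) D x :=
      (diff_bump j (hu' x hx)).comp_differentiableWithinAt x (hu x hx)
    exact h1.smul (hv j x hx)
  have h2 : ∀ n : ℕ, ∀ x ∈ D, ‖∑ j ∈ Finset.range n, bump j (u x) • v j x‖ ≤ 1 := by
    intro n x hx
    refine (norm_sum_le _ _).trans ((Finset.sum_le_sum fun j _ => ?_).trans
      (sum_le_one (hu' x hx) (Finset.range n)))
    rw [norm_smul]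
    exact mul_le_of_le_one_right (norm_nonneg _) (hb j x hx)
  obtain ⟨F, hF, -, hFt⟩ := Pool.Agent.H720R2.Cor.ultra_lim hD 𝒰 _ h1 h2
  refine hF.congr fun x hx => ?_
  refine tendsto_nhds_unique ?_ (hFt x hx)
  exact ((summable_smul (hu' x hx) (fun j => hb j x hx)).hasSum.tendsto_sum_nat).mono_left hle

theorem diff_tsum_E {X : Type*} [NormedAddCommGroup X] [NormedSpace ℂ X] {n : ℕ} {D : Set X}
    (hD : IsOpen D) (u : X → ℂ) (hu : DifferentiableOn ℂ u D) (hu' : ∀ x ∈ D, 0 < (u x).re)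
    (v : ℕ → X → E n) (hv : ∀ j, DifferentiableOn ℂ (v j) D) (hb : ∀ j, ∀ x ∈ D, ‖v j x‖ ≤ 1) :
    DifferentiableOn ℂ (fun x => ∑' j, bump j (u x) • v j x) D := by
  rw [differentiableOn_euclidean]
  intro i
  have h1 : DifferentiableOn ℂ (fun x => ∑' j, bump j (u x) • (v j x) i) D := by
    refine diff_tsum hD u hu hu' _ (fun j => ?_) (fun j x hx => ?_)
    · exact (differentiableOn_euclidean.1 (hv j)) i
    · exact (PiLp.norm_apply_le (v j x) i).trans (hb j x hx)
  refine h1.congr fun x hx => ?_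
  have h2 := (summable_smul (hu' x hx) (fun j => hb j x hx)).hasSum
  have h3 := (EuclideanSpace.proj (𝕜 := ℂ) i).hasSum h2
  exact h3.tsum_eq.symm

/-- The self-similarity data. -/
structure SSim {m n : ℕ} (D : Set (E m)) (p : E m) (Φ : E m → E n) (P : ℕ → E n → E m)
    (e : Set ℕ → E m → ℂ) : Prop where
  dΦ : DifferentiableOn ℂ Φ D
  mΦ : MapsTo Φ D (ball 0 1)
  mP : ∀ W : Set (E m), IsOpen W → p ∈ W → ∀ ξ ∈ ball (0 : E n) 1, ∃ s > 0,
    ball ξ s ⊆ ball 0 1 ∧ ∀ᶠ k in atTop, DifferentiableOn ℂ (P k) (ball ξ s) ∧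
      ∀ y ∈ ball ξ s, P k y ∈ D ∩ W
  ΦP : ∀ ξ ∈ ball (0 : E n) 1, Tendsto (fun k => Φ (P k ξ)) atTop (𝓝 ξ)
  de : ∀ A, DifferentiableOn ℂ (e A) D
  be : ∀ A, ∀ x ∈ D, ‖e A x‖ ≤ 1
  eP : ∀ A, ∀ ξ ∈ ball (0 : E n) 1,
    Tendsto (fun k => e A (P k ξ) - A.indicator (fun _ => (1 : ℂ)) k) atTop (𝓝 0)

/-- the dilations -/
noncomputable def es (k : ℕ) : ℝ := Real.exp (-(sc k) / 2)

theorem es_pos (k : ℕ) : 0 < es k := Real.exp_pos _

theorem es_sq (k : ℕ) : es k ^ 2 = Real.exp (-sc k) := by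
  rw [es, ← Real.exp_nat_mul]
  congr 1
  push_cast
  ring

theorem sc_pos (k : ℕ) : 0 < sc k := by unfold sc; positivity

theorem es_lt (k : ℕ) : es k < 1 := by
  rw [es, Real.exp_lt_one_iff]
  have := sc_pos k
  linarith

theorem es_tendsto : Tendsto es atTop (𝓝 0) := by
  unfold es
  refine Real.tendsto_exp_atBot.comp ?_
  have h1 : Tendsto (fun k => sc k / 2) atTop atTop := sc_tendsto.atTop_div_const (by norm_num)
  have h2 := tendsto_neg_atTop_atBot.comp h1
  refine h2.congr fun k => ?_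
  simp only [Function.comp]
  ring

theorem ssim_of_LD {m : ℕ} {D : Set (E m)} {p : E m} {B B' : E m →L[ℂ] E m}
    {q : E m → ℂ} {Λ : E m →L[ℂ] ℂ} {a C r : ℝ} (h : LD D p B B' q Λ a C r) :
    ∃ (Φ : E m → E m) (P : ℕ → E m → E m) (e : Set ℕ → E m → ℂ), SSim D p Φ P e := by
  have hinv : S_inv := t_inv
  obtain ⟨K, β, hK, hβ, hF⟩ := Pool.Agent.H643.CB.t_map m D p B B' q Λ a C r h
  have hA : ∀ k, Aut (mv (B p) (ae (es k) : ℂ)) (mv (B p) (-(ae (es k) : ℂ))) := fun k =>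
    aut_mv t_mv h.nB (by
      rw [mem_ball_zero_iff, Complex.norm_real, Real.norm_eq_abs,
        abs_of_pos (ae_pos (es_pos k) (es_lt k))]
      exact ae_lt (es_pos k))
  have hu : DifferentiableOn ℂ (wc p) D := (diff_wc p).differentiableOn
  have hu' : ∀ x ∈ D, 0 < (wc p x).re := fun x hx => re_wc h hF hx
  have hmaps : ∀ j, MapsTo (fun x => mv (B p) (-(ae (es j) : ℂ)) (Gm B p q Λ K β x)) D (ball 0 1) :=
    fun j x hx => (hA j).m2 (Gm_ball h hF hx)
  -- the coordinate of the approximate inverses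
  have hP : ∀ ξ ∈ ball (0 : E m) 1, ∃ v : ℂ, v ≠ 0 ∧ (∀ k, wc p (Pm B B' p q (es k) ξ) =
      (Real.exp (-sc k) : ℝ) * v) ∧ ∀ᶠ k in atTop, Pm B B' p q (es k) ξ ∈ D := by
    intro ξ hξ
    obtain ⟨s, ε₀, hs, hε₀, h1, h2⟩ := Pm_mem h hinv isOpen_univ (mem_univ p) hξ
    have h3 : ∀ᶠ k in atTop, Pm B B' p q (es k) ξ ∈ D := by
      filter_upwards [es_tendsto.eventually_lt_const hε₀] with k hk
      exact (h2 _ (es_pos k) hk ξ (mem_ball_self hs)).1
    have h4 : ∀ k, wc p (Pm B B' p q (es k) ξ) =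
        (Real.exp (-sc k) : ℝ) * (Wi B p ξ + q (Zi B B' p ξ)) := by
      intro k
      rw [Pm, wc_PP h.np q (es k) (perp_Zi h.i1 h.i2 h.np h.nB h.perp ξ), ← es_sq]
      push_cast
      rfl
    refine ⟨Wi B p ξ + q (Zi B B' p ξ), ?_, h4, h3⟩
    intro h0
    obtain ⟨k, hk⟩ := h3.exists
    have h5 := hu' _ hk
    rw [h4, h0, mul_zero] at h5
    simp at h5
  refine ⟨fun x => ∑' j, bump j (wc p x) • mv (B p) (-(ae (es j) : ℂ)) (Gm B p q Λ K β x),
    fun k => Pm B B' p q (es k),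
    fun A x => ∑' j, bump j (wc p x) • A.indicator (fun _ => (1 : ℂ)) j, ?_, ?_, ?_, ?_, ?_, ?_, ?_⟩
  · refine diff_tsum_E h.op (wc p) hu hu' _ (fun j => ?_) (fun j x hx => ?_)
    · exact (hA j).d2.comp (Gm_diff h hF) (fun x hx => Gm_ball h hF hx)
    · exact (mem_ball_zero_iff.1 (hmaps j hx)).le
  · intro x hx
    rw [mem_ball_zero_iff]
    exact norm_tsum_lt (hu' x hx) (fun j => mem_ball_zero_iff.1 (hmaps j hx))
  · intro W hW hpW ξ hξ
    obtain ⟨s, ε₀, hs, hε₀, h1, h2⟩ := Pm_mem h hinv hW hpW hξ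
    refine ⟨s, hs, h1, ?_⟩
    filter_upwards [es_tendsto.eventually_lt_const hε₀] with k hk
    refine ⟨fun y hy => (diff_Pm h (es k) (h1 hy)).differentiableWithinAt, fun y hy => ?_⟩
    exact h2 _ (es_pos k) hk y hy
  · intro ξ hξ
    obtain ⟨v, hv0, hv, hmem⟩ := hP ξ hξ
    have hE : Tendsto (fun k => EE B B' p q Λ K β (es k) ξ) atTop (𝓝 ξ) :=
      EE_tendsto h.i1 h.i2 h.np h.nB h.perp hβ es_tendsto hξ
    have hb : Tendsto (fun k => bump k (wc p (Pm B B' p q (es k) ξ))) atTop (𝓝 1) := by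
      simp only [hv]
      exact bump_tendsto hv0
    have h1 := hb.smul hE
    rw [one_smul] at h1
    have h2 : Tendsto (fun k : ℕ => ((1 : ℝ) / 2) ^ (k + 3)) atTop (𝓝 0) :=
      (tendsto_pow_atTop_nhds_zero_of_lt_one (by norm_num) (by norm_num)).comp
        (tendsto_add_atTop_nat 3)
    have h3 : Tendsto (fun k => (∑' j, bump j (wc p (Pm B B' p q (es k) ξ)) •
        mv (B p) (-(ae (es j) : ℂ)) (Gm B p q Λ K β (Pm B B' p q (es k) ξ))) -
        bump k (wc p (Pm B B' p q (es k) ξ)) • EE B B' p q Λ K β (es k) ξ) atTop (𝓝 0) := by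
      refine squeeze_zero_norm' ?_ h2
      filter_upwards [hmem, closest_center hv0] with k hk hc
      have h4 : mv (B p) (-(ae (es k) : ℂ)) (Gm B p q Λ K β (Pm B B' p q (es k) ξ)) =
          EE B B' p q Λ K β (es k) ξ := by
        rw [Gm_Pm h hF (es_pos k) (es_lt k) hk, (hA k).i1 _ (EE_ball h hF (es_pos k) hk)]
      have h5 := tsum_near (hu' _ hk) (k := k) (by rw [hv]; exact hc)
        (v := fun j => mv (B p) (-(ae (es j) : ℂ)) (Gm B p q Λ K β (Pm B B' p q (es k) ξ)))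
        (fun j => (mem_ball_zero_iff.1 (hmaps j hk)).le)
      simp only [h4] at h5
      exact h5
    have h6 := h3.add h1
    rw [zero_add] at h6
    refine h6.congr fun k => ?_
    abel
  · intro A
    refine diff_tsum h.op (wc p) hu hu' _ (fun j => differentiableOn_const _) (fun j x hx => ?_)
    by_cases hj : j ∈ A <;> simp [hj]
  · intro A x hx
    refine norm_tsum_le (hu' x hx) (fun j => ?_)
    by_cases hj : j ∈ A <;> simp [hj]
  · intro A ξ hξ
    obtain ⟨v, hv0, hv, hmem⟩ := hP ξ hξ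
    have hb : Tendsto (fun k => bump k (wc p (Pm B B' p q (es k) ξ))) atTop (𝓝 1) := by
      simp only [hv]
      exact bump_tendsto hv0
    have h2 : Tendsto (fun k : ℕ => ((1 : ℝ) / 2) ^ (k + 3)) atTop (𝓝 0) :=
      (tendsto_pow_atTop_nhds_zero_of_lt_one (by norm_num) (by norm_num)).comp
        (tendsto_add_atTop_nat 3)
    have h3 : Tendsto (fun k => (∑' j, bump j (wc p (Pm B B' p q (es k) ξ)) •
        A.indicator (fun _ => (1 : ℂ)) j) -
        bump k (wc p (Pm B B' p q (es k) ξ)) • A.indicator (fun _ => (1 : ℂ)) k) atTop (𝓝 0) := by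
      refine squeeze_zero_norm' ?_ h2
      filter_upwards [hmem, closest_center hv0] with k hk hc
      refine tsum_near (hu' _ hk) (k := k) (by rw [hv]; exact hc) (fun j => ?_)
      by_cases hj : j ∈ A <;> simp [hj]
    have h4 : Tendsto (fun k => bump k (wc p (Pm B B' p q (es k) ξ)) •
        A.indicator (fun _ => (1 : ℂ)) k - A.indicator (fun _ => (1 : ℂ)) k) atTop (𝓝 0) := by
      have h5 : Tendsto (fun k => ‖bump k (wc p (Pm B B' p q (es k) ξ)) - 1‖) atTop (𝓝 0) := by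
        have := (hb.sub_const 1).norm
        simpa using this
      refine squeeze_zero_norm (fun k => ?_) h5
      have h6 : bump k (wc p (Pm B B' p q (es k) ξ)) • A.indicator (fun _ => (1 : ℂ)) k -
          A.indicator (fun _ => (1 : ℂ)) k =
          (bump k (wc p (Pm B B' p q (es k) ξ)) - 1) * A.indicator (fun _ => (1 : ℂ)) k := by
        rw [smul_eq_mul]; ring
      rw [h6, norm_mul]
      refine mul_le_of_le_one_right (norm_nonneg _) ?_
      by_cases hj : k ∈ A <;> simp [hj]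
    have h6 := h3.add h4
    rw [zero_add] at h6
    refine h6.congr fun k => ?_
    ring

end Pool.Agent.H272.SS
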