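import Mathlib
import Pool.Agent.H272.Self.Defs

/-!
Definitions (version with Banach algebras): `H^∞(D)`, its maximal ideal space, the corona set, the fibres, the domains.
-/

set_option autoImplicit false

open Metric Set Filter Topology
open scoped ContDiff BoundedContinuousFunction

namespace Pool.Agent.H272.SS

/-- `ℂ^m` with the Euclidean norm. -/
abbrev V (m : ℕ) := EuclideanSpace ℂ (Fin m)

/-- `H^∞(D)`, the algebra of the bounded holomorphic functions on the open set `D`, with the supremum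
norm: a closed subalgebra of the algebra of the bounded continuous functions on `D`. -/
def Hinf {m : ℕ} (D : Set (V m)) : Subalgebra ℂ (D →ᵇ ℂ) where
  carrier := {f | ∃ F : V m → ℂ, DifferentiableOn ℂ F D ∧ ∀ z : D, F z = f z}
  mul_mem' := by
    rintro f g ⟨F, hF, hf⟩ ⟨G, hG, hg⟩
    exact ⟨fun z => F z * G z, hF.mul hG, fun z => by simp [hf, hg]⟩
  add_mem' := by
    rintro f g ⟨F, hF, hf⟩ ⟨G, hG, hg⟩
    exact ⟨fun z => F z + G z, hF.add hG, fun z => by simp [hf, hg]⟩
  algebraMap_mem' := fun c => ⟨fun _ => c, differentiableOn_const c, fun _ => rfl⟩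

/-- The maximal ideal space `M(H^∞(D))`: the characters (nonzero multiplicative linear functionals) of
`H^∞(D)` with the Gelfand topology (pointwise convergence on `H^∞(D)`). -/
abbrev MaxSpace {m : ℕ} (D : Set (V m)) := WeakDual.characterSpace ℂ (Hinf D)

/-- The points of `D` as characters (evaluations). -/
def Points {m : ℕ} (D : Set (V m)) : Set (MaxSpace D) :=
  {φ | ∃ z : D, ∀ f : Hinf D, φ f = (f : D →ᵇ ℂ) z}

/-- The corona: the characters which are not in the closure of `D`. -/
def Corona {m : ℕ} (D : Set (V m)) : Set (MaxSpace D) := (closure (Points D))ᶜ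

/-- The characters over the boundary point `p`: the value at `f` is the limit of `f` at `p`
whenever this limit exists (in particular this holds for the coordinates). -/
def Fibre {m : ℕ} (D : Set (V m)) (p : V m) : Set (MaxSpace D) :=
  {φ | ∀ (f : Hinf D) (c : ℂ), Tendsto (f : D →ᵇ ℂ) (comap Subtype.val (𝓝 p)) (𝓝 c) → φ f = c}

/-- `F` is holomorphic and bounded by some constant on `D`. -/
def BddHol {m : ℕ} (D : Set (V m)) (F : V m → ℂ) : Prop :=
  DifferentiableOn ℂ F D ∧ ∃ C : ℝ, ∀ z ∈ D, ‖F z‖ ≤ C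

/-- The corona theorem holds on `D`: whenever `F_1, …, F_N` are bounded holomorphic functions on `D`
with `∑ |F_j|² > δ` on `D` for some `δ > 0`, there are bounded holomorphic `h_j` with
`∑ F_j h_j = 1` on `D`. -/
def CoronaTheorem {m : ℕ} (D : Set (V m)) : Prop :=
  ∀ (N : ℕ) (F : Fin N → V m → ℂ), (∀ j, BddHol D (F j)) →
    (∃ δ : ℝ, 0 < δ ∧ ∀ z ∈ D, δ < ∑ j, ‖F j z‖ ^ 2) →
      ∃ h : Fin N → V m → ℂ, (∀ j, BddHol D (h j)) ∧ ∀ z ∈ D, ∑ j, F j z * h j z = 1

/-- The Bezout equation `∑ F_j g_j = 1` has a holomorphic solution with `|g_j| ≤ C` on `D`. -/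
def Solvable {m N : ℕ} (D : Set (V m)) (C : ℝ) (F : Fin N → V m → ℂ) : Prop :=
  ∃ g : Fin N → V m → ℂ, (∀ j, DifferentiableOn ℂ (g j) D) ∧ (∀ j, ∀ z ∈ D, ‖g j z‖ ≤ C) ∧
    ∀ z ∈ D, ∑ j, F j z * g j z = 1

/-- The free ultrafilters on the natural numbers. -/
abbrev Free : Type := Pool.Agent.H272.Self.Free

/-- `p` is a boundary point of `D` at maximal distance from some point `c`, and the boundary of `D` is
of class `C³` near `p`. -/
abbrev Exposed {m : ℕ} (D : Set (V m)) (p : V m) : Prop := Pool.Agent.H272.Self.Exposed D p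

end Pool.Agent.H272.SS
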