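import Mathlib
import Pool.Agent.H272.SS.Defs
import Pool.Agent.H272.SS.Core

/-!
Self-similarity data at exposed points, in all dimensions `n ≤ m`; the transfer of the Bezout equations.
-/

set_option autoImplicit false

open Metric Set Filter Topology
open scoped ContDiff

namespace Pool.Agent.H272.SS

open Pool.Agent.H303.CB (E SmoothAt farthest exists_LD t_taylor)

/-- affine change of coordinates -/
theorem SSim.affine {m n : ℕ} {D : Set (E m)} {p c : E m} {R : ℝ} (hR : 0 < R) {Φ : E m → E n}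
    {P : ℕ → E n → E m} {e : Set ℕ → E m → ℂ}
    (h : SSim {y : E m | c + (R : ℂ) • y ∈ D} ((R : ℂ)⁻¹ • (p - c)) Φ P e) :
    SSim D p (fun x => Φ ((R : ℂ)⁻¹ • (x - c))) (fun k ξ => c + (R : ℂ) • P k ξ)
      (fun A x => e A ((R : ℂ)⁻¹ • (x - c))) := by
  have hR' : (R : ℂ) ≠ 0 := by exact_mod_cast hR.ne'
  have hS : ∀ x : E m, c + (R : ℂ) • ((R : ℂ)⁻¹ • (x - c)) = x := by
    intro x
    rw [smul_smul, mul_inv_cancel₀ hR', one_smul]; abel
  have hT : ∀ y : E m, (R : ℂ)⁻¹ • (c + (R : ℂ) • y - c) = y := by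
    intro y
    rw [add_sub_cancel_left, smul_smul, inv_mul_cancel₀ hR', one_smul]
  have hSd : Differentiable ℂ (fun x : E m => (R : ℂ)⁻¹ • (x - c)) := by fun_prop
  have hTd : Differentiable ℂ (fun y : E m => c + (R : ℂ) • y) := by fun_prop
  have hSm : MapsTo (fun x : E m => (R : ℂ)⁻¹ • (x - c)) D {y : E m | c + (R : ℂ) • y ∈ D} := by
    intro x hx
    change c + (R : ℂ) • ((R : ℂ)⁻¹ • (x - c)) ∈ D
    rwa [hS]
  refine ⟨h.dΦ.comp hSd.differentiableOn hSm, fun x hx => h.mΦ (hSm hx), ?_, ?_,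
    fun A => (h.de A).comp hSd.differentiableOn hSm, fun A x hx => h.be A _ (hSm hx), ?_⟩
  · intro W hW hpW ξ hξ
    obtain ⟨s, hs, hsub, hk⟩ := h.mP {y : E m | c + (R : ℂ) • y ∈ W}
      (hW.preimage hTd.continuous) (by
        change c + (R : ℂ) • ((R : ℂ)⁻¹ • (p - c)) ∈ W
        rwa [hS]) ξ hξ
    refine ⟨s, hs, hsub, ?_⟩
    filter_upwards [hk] with k hk'
    exact ⟨(hTd.differentiableOn (s := univ)).comp hk'.1 (mapsTo_univ _ _),
      fun y hy => ⟨(hk'.2 y hy).1, (hk'.2 y hy).2⟩⟩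
  · intro ξ hξ
    simp only [hT]
    exact h.ΦP ξ hξ
  · intro A ξ hξ
    simp only [hT]
    exact h.eP A ξ hξ

/-- the inclusion -/
noncomputable def iot (k d : ℕ) : E k →ₗ[ℂ] E (k + d) where
  toFun y := WithLp.toLp 2 (Fin.append (fun i => y i) (fun _ : Fin d => (0 : ℂ)))
  map_add' x y := by
    ext i
    refine Fin.addCases (fun i => ?_) (fun i => ?_) i <;> simp
  map_smul' c x := by
    ext i
    refine Fin.addCases (fun i => ?_) (fun i => ?_) i <;> simp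

/-- the projection -/
noncomputable def pro (k d : ℕ) : E (k + d) →ₗ[ℂ] E k where
  toFun x := WithLp.toLp 2 (fun i => x (Fin.castAdd d i))
  map_add' x y := by ext i; simp
  map_smul' c x := by ext i; simp

theorem norm_iot {k d : ℕ} (y : E k) : ‖iot k d y‖ = ‖y‖ := by
  rw [EuclideanSpace.norm_eq, EuclideanSpace.norm_eq, Fin.sum_univ_add]
  congr 1
  simp [iot]

theorem norm_pro {k d : ℕ} (x : E (k + d)) : ‖pro k d x‖ ≤ ‖x‖ := by
  rw [EuclideanSpace.norm_eq, EuclideanSpace.norm_eq, Fin.sum_univ_add]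
  apply Real.sqrt_le_sqrt
  have h1 : ∑ i : Fin k, ‖(pro k d x) i‖ ^ 2 = ∑ i : Fin k, ‖x (Fin.castAdd d i)‖ ^ 2 := by
    simp [pro]
  rw [h1]
  have : 0 ≤ ∑ i : Fin d, ‖x (Fin.natAdd k i)‖ ^ 2 := Finset.sum_nonneg fun i _ => sq_nonneg _
  linarith

theorem pro_iot {k d : ℕ} (y : E k) : pro k d (iot k d y) = y := by
  ext i
  simp [pro, iot]

/-- lower dimensions -/
theorem SSim.low {m n k : ℕ} (hk : k ≤ n) {D : Set (E m)} {p : E m} {Φ : E m → E n}
    {P : ℕ → E n → E m} {e : Set ℕ → E m → ℂ} (h : SSim D p Φ P e) :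
    ∃ (Φ' : E m → E k) (P' : ℕ → E k → E m), SSim D p Φ' P' e := by
  obtain ⟨d, rfl⟩ := Nat.exists_eq_add_of_le hk
  have d1 : Differentiable ℂ (fun x => pro k d x) :=
    (LinearMap.toContinuousLinearMap (pro k d)).differentiable
  have d2 : Differentiable ℂ (fun y => iot k d y) :=
    (LinearMap.toContinuousLinearMap (iot k d)).differentiable
  have m1 : MapsTo (fun x => pro k d x) (ball (0 : E (k + d)) 1) (ball (0 : E k) 1) := by
    intro x hx
    rw [mem_ball_zero_iff] at hx ⊢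
    exact (norm_pro x).trans_lt hx
  have m2 : MapsTo (fun y => iot k d y) (ball (0 : E k) 1) (ball (0 : E (k + d)) 1) := by
    intro y hy
    rw [mem_ball_zero_iff] at hy ⊢
    rwa [norm_iot]
  refine ⟨fun x => pro k d (Φ x), fun j y => P j (iot k d y),
    (d1.differentiableOn (s := univ)).comp h.dΦ (mapsTo_univ _ _), fun x hx => m1 (h.mΦ hx),
    ?_, ?_, h.de, h.be, fun A ξ hξ => h.eP A _ (m2 hξ)⟩
  · intro W hW hpW ξ hξ
    obtain ⟨s, hs, hsub, hk⟩ := h.mP W hW hpW _ (m2 hξ)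
    have m3 : MapsTo (fun y => iot k d y) (ball ξ s) (ball (iot k d ξ) s) := by
      intro y hy
      rw [mem_ball, dist_eq_norm] at hy ⊢
      rwa [← map_sub, norm_iot]
    refine ⟨s, hs, ?_, ?_⟩
    · intro y hy
      have := hsub (m3 hy)
      rw [mem_ball_zero_iff] at this ⊢
      rwa [norm_iot] at this
    · filter_upwards [hk] with j hj
      exact ⟨hj.1.comp d2.differentiableOn m3, fun y hy => hj.2 _ (m3 hy)⟩
  · intro ξ hξ
    have h1 := ((d1.continuous.tendsto (iot k d ξ))).comp (h.ΦP _ (m2 hξ))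
    rw [pro_iot] at h1
    exact h1

theorem ssim_ball {m : ℕ} {D : Set (E m)} {p c : E m} {R : ℝ} (hR : 0 < R) (hD : IsOpen D)
    (hD1 : D ⊆ ball c R) (hp : ‖p - c‖ = R) (hpD : p ∈ closure D) (hs : SmoothAt D p) :
    ∃ (Φ : E m → E m) (P : ℕ → E m → E m) (e : Set ℕ → E m → ℂ), SSim D p Φ P e := by
  have hR' : (R : ℂ) ≠ 0 := by exact_mod_cast hR.ne'
  have hS : ∀ x : E m, c + (R : ℂ) • ((R : ℂ)⁻¹ • (x - c)) = x := by
    intro x
    rw [smul_smul, mul_inv_cancel₀ hR', one_smul]; abel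
  have hT : ∀ y : E m, (R : ℂ)⁻¹ • (c + (R : ℂ) • y - c) = y := by
    intro y
    rw [add_sub_cancel_left, smul_smul, inv_mul_cancel₀ hR', one_smul]
  have hTc : Continuous (fun y : E m => c + (R : ℂ) • y) := by fun_prop
  have hSc : Continuous (fun x : E m => (R : ℂ)⁻¹ • (x - c)) := by fun_prop
  have h1 : {y : E m | c + (R : ℂ) • y ∈ D} ⊆ ball 0 1 := by
    intro y hy
    have h1 := hD1 hy
    rw [mem_ball, dist_eq_norm, add_sub_cancel_left, norm_smul, Complex.norm_real,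
      Real.norm_eq_abs, abs_of_pos hR] at h1
    rw [mem_ball_zero_iff]
    nlinarith
  have h2 : ‖(R : ℂ)⁻¹ • (p - c)‖ = 1 := by
    rw [norm_smul, norm_inv, Complex.norm_real, Real.norm_eq_abs, abs_of_pos hR, hp,
      inv_mul_cancel₀ hR.ne']
  have h3 : (R : ℂ)⁻¹ • (p - c) ∈ closure {y : E m | c + (R : ℂ) • y ∈ D} := by
    have h1 : (fun x : E m => (R : ℂ)⁻¹ • (x - c)) p ∈
        closure ((fun x : E m => (R : ℂ)⁻¹ • (x - c)) '' D) :=
      image_closure_subset_closure_image hSc ⟨p, hpD, rfl⟩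
    refine closure_mono ?_ h1
    rintro _ ⟨x, hx, rfl⟩
    change c + (R : ℂ) • ((R : ℂ)⁻¹ • (x - c)) ∈ D
    rwa [hS]
  have h4 : SmoothAt {y : E m | c + (R : ℂ) • y ∈ D} ((R : ℂ)⁻¹ • (p - c)) := by
    obtain ⟨U, ρ, hU, hpU, hρ, hUD, hne⟩ := hs
    have e1 : (fun y : E m => c + (R : ℂ) • y) = fun y : E m => c + R • y := by
      funext y; rw [Complex.coe_smul]
    have hTr : ContDiff ℝ 3 (fun y : E m => c + (R : ℂ) • y) := by
      rw [e1]; exact contDiff_const.add (contDiff_id.const_smul R)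
    refine ⟨{y : E m | c + (R : ℂ) • y ∈ U}, fun y => ρ (c + (R : ℂ) • y), hU.preimage hTc, ?_,
      hρ.comp hTr.contDiffOn (fun y hy => hy), fun y hy => hUD _ hy, ?_⟩
    · change c + (R : ℂ) • ((R : ℂ)⁻¹ • (p - c)) ∈ U
      rwa [hS]
    · intro h0
      apply hne
      have hρp : DifferentiableAt ℝ ρ (c + (R : ℂ) • ((R : ℂ)⁻¹ • (p - c))) := by
        rw [hS]
        exact (hρ.contDiffAt (hU.mem_nhds hpU)).differentiableAt (by norm_num)
      have hd : HasFDerivAt (fun y : E m => c + (R : ℂ) • y) (R • ContinuousLinearMap.id ℝ (E m))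
          ((R : ℂ)⁻¹ • (p - c)) := by
        rw [e1]
        exact ((hasFDerivAt_id _).const_smul R).const_add c
      have h2 : HasFDerivAt (fun y : E m => ρ (c + (R : ℂ) • y))
        ((fderiv ℝ ρ (c + (R : ℂ) • ((R : ℂ)⁻¹ • (p - c)))).comp
          (R • ContinuousLinearMap.id ℝ (E m))) ((R : ℂ)⁻¹ • (p - c)) :=
        HasFDerivAt.comp (g := ρ) (f := fun y : E m => c + (R : ℂ) • y) _ hρp.hasFDerivAt hd
      have h3 := h2.fderiv
      rw [h0, hS] at h3
      ext v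
      have h4 := congrArg (fun L : E m →L[ℝ] ℝ => L (R⁻¹ • v)) h3
      simp only [ContinuousLinearMap.comp_apply, ContinuousLinearMap.smul_apply,
        ContinuousLinearMap.zero_apply, ContinuousLinearMap.id_apply, smul_smul,
        mul_inv_cancel₀ hR.ne', one_smul] at h4
      exact h4.symm
  obtain ⟨U, ρ, hU, hpU, hρ, hUD, hne⟩ := h4
  obtain ⟨B, B', q, Λ, a, C, r, h⟩ := exists_LD t_taylor Pool.Agent.H253.CB.t_dec
    (hD.preimage hTc) h1 h2 h3 hU hpU hρ hUD hne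
  obtain ⟨Φ, P, e, h5⟩ := ssim_of_LD h
  exact ⟨_, _, _, h5.affine hR⟩

/-- **Self-similarity data at exposed points.** -/
theorem ssim_exposed {m n : ℕ} (hm : 0 < m) {D : Set (V m)} {p : V m} (hD : IsOpen D)
    (hp : Exposed D p) (hn : n ≤ m) :
    ∃ (Φ : V m → V n) (P : ℕ → V n → V m) (e : Set ℕ → V m → ℂ), SSim D p Φ P e := by
  obtain ⟨hp, ⟨c, hc⟩, U, ρ, h1, h2, h3, h4, v, h5⟩ := hp
  have hcl := frontier_subset_closure hp
  obtain ⟨h6, h7⟩ := farthest hm hD (closure_nonempty_iff.1 ⟨p, hcl⟩) hcl hc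
  obtain ⟨Φ, P, e, h8⟩ := ssim_ball h6 hD h7 rfl hcl
    ⟨U, ρ, h1, h2, h3, h4, fun h0 => h5 (by rw [Pool.Agent.H272.Self.dr, h0]; rfl)⟩
  obtain ⟨Φ', P', h9⟩ := h8.low hn
  exact ⟨Φ', P', e, h9⟩

/-- **Transfer of the Bezout equations.** -/
theorem SSim.transfer {m n : ℕ} {D : Set (V m)} {p : V m} {Φ : V m → V n}
    {P : ℕ → V n → V m} {e : Set ℕ → V m → ℂ} (h : SSim D p Φ P e) {N : ℕ} {f : Fin N → V n → ℂ}
    (hf : ∀ j, DifferentiableOn ℂ (f j) (ball 0 1)) {C : ℝ} {W : Set (V m)} (hW : IsOpen W)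
    (hpW : p ∈ W) : Solvable (ball 0 1) C f ↔ Solvable (D ∩ W) C (fun j x => f j (Φ x)) := by
  constructor
  · rintro ⟨g, g1, g2, g3⟩
    have hm : MapsTo Φ (D ∩ W) (ball 0 1) := fun x hx => h.mΦ hx.1
    exact ⟨fun j x => g j (Φ x), fun j => (g1 j).comp (h.dΦ.mono inter_subset_left) hm,
      fun j x hx => g2 j _ (hm hx), fun x hx => g3 _ (hm hx)⟩
  · rintro ⟨g, g1, g2, g3⟩
    set 𝒰 : Ultrafilter ℕ := Ultrafilter.of atTop with h𝒰
    have hle : (𝒰 : Filter ℕ) ≤ atTop := Ultrafilter.of_le _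
    refine Pool.Agent.H303.CB.Dich.lsc (B := ball (0 : V n) 1) (M := C) 𝒰
      (fun k => {ξ | ∃ s > 0, DifferentiableOn ℂ (P k) (ball ξ s) ∧ ∀ y ∈ ball ξ s, P k y ∈ D ∩ W})
      (fun k j ξ => f j (Φ (P k ξ))) f ?_ ?_ ?_
    · refine Eventually.of_forall fun k => ⟨fun j ξ => g j (P k ξ), ?_, ?_, ?_⟩
      · rintro j ξ ⟨s, hs, h1, h2⟩
        have h3 : DifferentiableOn ℂ (fun ξ => g j (P k ξ)) (ball ξ s) := (g1 j).comp h1 h2
        exact (h3.differentiableAt (ball_mem_nhds ξ hs)).differentiableWithinAt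
      · rintro j ξ ⟨s, hs, h1, h2⟩
        exact g2 j _ (h2 ξ (mem_ball_self hs))
      · rintro ξ ⟨s, hs, h1, h2⟩
        exact g3 _ (h2 ξ (mem_ball_self hs))
    · intro ξ hξ
      obtain ⟨s, hs, hsub, hk⟩ := h.mP W hW hpW ξ hξ
      refine ⟨s, hs, ?_⟩
      filter_upwards [hle hk] with k hk'
      intro y hy
      have hpos : 0 < s - dist y ξ := by
        rw [mem_ball] at hy
        linarith
      have hss : ball y (s - dist y ξ) ⊆ ball ξ s := ball_subset_ball' (by linarith)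
      exact ⟨s - dist y ξ, hpos, hk'.1.mono hss, fun z hz => hk'.2 z (hss hz)⟩
    · intro ξ hξ j
      exact ((((hf j).differentiableAt (isOpen_ball.mem_nhds hξ)).continuousAt.tendsto).comp
        (h.ΦP ξ hξ)).mono_left hle

end Pool.Agent.H272.SS
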