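import Mathlib
import Pool.Agent.H272.SS.Defs
import Pool.Graph.R_seed8.H720R2.Cor.Lim

/-!
`H^∞(D)` as a Banach algebra.
-/

set_option autoImplicit false

open Metric Set Filter Topology
open scoped BoundedContinuousFunction

namespace Pool.Agent.H272.SS


open Classical in
/-- extension by zero -/
noncomputable def ex {m : ℕ} {D : Set (V m)} (g : Hinf D) (x : V m) : ℂ :=
  if h : x ∈ D then (g : D →ᵇ ℂ) ⟨x, h⟩ else 0

variable {m n : ℕ} {D : Set (V m)}

theorem ex_apply (g : Hinf D) {x : V m} (h : x ∈ D) : ex g x = (g : D →ᵇ ℂ) ⟨x, h⟩ := dif_pos h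

theorem ex_coe (g : Hinf D) (z : D) : ex g z = (g : D →ᵇ ℂ) z := ex_apply g z.2

theorem ex_diff (g : Hinf D) : DifferentiableOn ℂ (ex g) D := by
  obtain ⟨F, hF, hFg⟩ := g.2
  refine hF.congr fun x hx => ?_
  rw [ex_apply g hx]
  exact (hFg ⟨x, hx⟩).symm

theorem norm_coe_le (g : Hinf D) (z : D) : ‖(g : D →ᵇ ℂ) z‖ ≤ ‖g‖ :=
  BoundedContinuousFunction.norm_coe_le_norm (g : D →ᵇ ℂ) z

theorem ex_le (g : Hinf D) (x : V m) : ‖ex g x‖ ≤ ‖g‖ := by
  by_cases h : x ∈ D
  · rw [ex_apply g h]; exact norm_coe_le g _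
  · rw [ex, dif_neg h, norm_zero]; exact norm_nonneg _

/-- a bounded holomorphic function as an element of the algebra -/
theorem exists_mk (F : V m → ℂ) (hF : DifferentiableOn ℂ F D) {C : ℝ} (hC : ∀ z ∈ D, ‖F z‖ ≤ C) :
    ∃ g : Hinf D, ∀ z : D, (g : D →ᵇ ℂ) z = F z := by
  have hc : Continuous (D.domRestrict F) := continuousOn_iff_continuous_domRestrict.1 hF.continuousOn
  refine ⟨⟨BoundedContinuousFunction.ofNormedAddCommGroup (D.domRestrict F) hc C fun z => hC z z.2,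
    F, hF, fun z => rfl⟩, fun z => rfl⟩

theorem norm_le_of (g : Hinf D) {C : ℝ} (hC : 0 ≤ C) (h : ∀ z : D, ‖(g : D →ᵇ ℂ) z‖ ≤ C) :
    ‖g‖ ≤ C := (BoundedContinuousFunction.norm_le hC).2 h

theorem hinf_ext {g g' : Hinf D} (h : ∀ z : D, (g : D →ᵇ ℂ) z = (g' : D →ᵇ ℂ) z) : g = g' :=
  Subtype.ext (BoundedContinuousFunction.ext h)

theorem isClosed_Hinf (hD : IsOpen D) : IsClosed (Hinf D : Set (D →ᵇ ℂ)) := by
  refine IsSeqClosed.isClosed ?_
  intro u f hu hf
  set 𝒰 : Ultrafilter ℕ := Ultrafilter.of atTop with h𝒰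
  have hle : (𝒰 : Filter ℕ) ≤ atTop := Ultrafilter.of_le _
  obtain ⟨C, hC⟩ : ∃ C : ℝ, ∀ k, ‖u k‖ ≤ C := by
    obtain ⟨C, hC⟩ := (Metric.isBounded_range_of_tendsto u hf).exists_norm_le
    exact ⟨C, fun k => hC _ ⟨k, rfl⟩⟩
  obtain ⟨F, hF, -, hFt⟩ := Pool.Agent.H720R2.Cor.ultra_lim hD (C := C) 𝒰
    (fun k => ex (⟨u k, hu k⟩ : Hinf D)) (fun k => ex_diff _)
    (fun k x _ => (ex_le (⟨u k, hu k⟩ : Hinf D) x).trans (hC k))
  refine ⟨F, hF, fun z => tendsto_nhds_unique (hFt z z.2) ?_⟩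
  have h1 : Tendsto (fun k => (u k) z) atTop (𝓝 (f z)) :=
    ((BoundedContinuousFunction.tendsto_iff_tendstoUniformly.1 hf).tendsto_at z)
  refine (h1.mono_left hle).congr fun k => ?_
  exact (ex_coe (⟨u k, hu k⟩ : Hinf D) z).symm

theorem complete_Hinf (hD : IsOpen D) : CompleteSpace (Hinf D) :=
  (isClosed_Hinf hD).completeSpace_coe

/-- composition with a holomorphic map -/
theorem exists_comp {D' : Set (V n)} {Φ : V m → V n} (hd : DifferentiableOn ℂ Φ D)
    (hm : MapsTo Φ D D') : ∃ S : Hinf D' →ₐ[ℂ] Hinf D, ∀ (f : Hinf D') (z : D),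
      (S f : D →ᵇ ℂ) z = (f : D' →ᵇ ℂ) ⟨Φ z, hm z.2⟩ := by
  have h1 : ∀ f : Hinf D', ∃ g : Hinf D, ∀ z : D, (g : D →ᵇ ℂ) z = ex f (Φ z) := fun f =>
    exists_mk _ ((ex_diff f).comp hd hm) (C := ‖f‖) fun z _ => ex_le f _
  choose S hS using h1
  have hS' : ∀ (f : Hinf D') (z : D), (S f : D →ᵇ ℂ) z = (f : D' →ᵇ ℂ) ⟨Φ z, hm z.2⟩ := by
    intro f z
    rw [hS, ex_apply f (hm z.2)]
  refine ⟨
    { toFun := S
      map_one' := hinf_ext fun z => by rw [hS']; rfl
      map_mul' := fun f g => hinf_ext fun z => by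
        rw [hS', Subalgebra.coe_mul, Subalgebra.coe_mul, BoundedContinuousFunction.mul_apply,
          BoundedContinuousFunction.mul_apply, hS', hS']
      map_zero' := hinf_ext fun z => by rw [hS']; rfl
      map_add' := fun f g => hinf_ext fun z => by
        rw [hS', Subalgebra.coe_add, Subalgebra.coe_add, BoundedContinuousFunction.add_apply,
          BoundedContinuousFunction.add_apply, hS', hS']
      commutes' := fun c => hinf_ext fun z => by rw [hS']; rfl }, hS'⟩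

/-- the dual map of a homomorphism -/
theorem exists_dual {A B : Type*} [NormedCommRing A] [NormedAlgebra ℂ A] [CompleteSpace A]
    [NormedCommRing B] [NormedAlgebra ℂ B] [CompleteSpace B] (R : A →ₐ[ℂ] B) :
    ∃ T : WeakDual.characterSpace ℂ B → WeakDual.characterSpace ℂ A, Continuous T ∧
      ∀ φ a, T φ a = φ (R a) := by
  refine ⟨fun φ => WeakDual.CharacterSpace.equivAlgHom.symm
    ((WeakDual.CharacterSpace.equivAlgHom φ).comp R), ?_, fun φ a => rfl⟩
  exact Continuous.subtype_mk (WeakDual.continuous_of_continuous_eval fun a =>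
    map_continuous <| WeakDual.gelfandTransform ℂ B (R a)) _

/-- evaluation -/
theorem exists_ev (hD : IsOpen D) (z : D) : ∃ φ : MaxSpace D, ∀ f : Hinf D, φ f = (f : D →ᵇ ℂ) z := by
  have := complete_Hinf hD
  exact ⟨WeakDual.CharacterSpace.equivAlgHom.symm
    { toFun := fun f => (f : D →ᵇ ℂ) z
      map_one' := rfl
      map_mul' := fun _ _ => rfl
      map_zero' := rfl
      map_add' := fun _ _ => rfl
      commutes' := fun _ => rfl }, fun f => rfl⟩

end Pool.Agent.H272.SS
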