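import Mathlib
import Pool.Agent.H272.SS.Alg

/-!
The corona theorem and the corona.
-/

set_option autoImplicit false

open Metric Set Filter Topology
open scoped BoundedContinuousFunction

namespace Pool.Agent.H272.SS

variable {m : ℕ} {D : Set (V m)}

/-- points outside of the closure -/
theorem exists_finset (hD : IsOpen D) {φ : MaxSpace D} (h : φ ∈ Corona D) :
    ∃ (I : Finset (Hinf D)) (ε : ℝ), 0 < ε ∧ ∀ z : D, ∃ f ∈ I, ε ≤ ‖(f : D →ᵇ ℂ) z - φ f‖ := by
  classical
  have hind : IsInducing (fun (ψ : MaxSpace D) (f : Hinf D) => ψ f) := by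
    have h1 : IsInducing (fun (ψ : WeakDual ℂ (Hinf D)) (f : Hinf D) => ψ f) :=
      ⟨rfl⟩
    exact h1.comp IsInducing.subtypeVal
  rw [Corona, mem_compl_iff, hind.closure_eq_preimage_closure_image, mem_preimage,
    mem_closure_iff_nhds] at h
  push Not at h
  obtain ⟨t, ht, hte⟩ := h
  rw [nhds_pi, Filter.mem_pi] at ht
  obtain ⟨I, hI, s, hs, hst⟩ := ht
  have h1 : ∀ f : Hinf D, ∃ ε : ℝ, 0 < ε ∧ ball (φ f) ε ⊆ s f := fun f => by
    obtain ⟨ε, hε, hs'⟩ := Metric.mem_nhds_iff.1 (hs f)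
    exact ⟨ε, hε, hs'⟩
  choose ε hε hεs using h1
  obtain ⟨ε₀, hε₀, hle⟩ : ∃ ε₀ : ℝ, 0 < ε₀ ∧ ∀ f ∈ I, ε₀ ≤ ε f := by
    have h2 : ∀ᶠ x in 𝓝[>] (0 : ℝ), ∀ f ∈ I, x ≤ ε f := by
      rw [Filter.eventually_all_finite hI]
      intro f _
      have h3 : ∀ᶠ x in 𝓝 (0 : ℝ), x < ε f := gt_mem_nhds (hε f)
      exact (h3.filter_mono nhdsWithin_le_nhds).mono fun x hx => hx.le
    obtain ⟨x, hx1, hx2⟩ := (h2.and self_mem_nhdsWithin).exists
    exact ⟨x, hx2, hx1⟩
  refine ⟨hI.toFinset, ε₀, hε₀, fun z => ?_⟩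
  by_contra hcon
  push Not at hcon
  obtain ⟨ψ, hψ⟩ := exists_ev hD z
  have h4 : (fun f : Hinf D => ψ f) ∈ t ∩ (fun (ψ : MaxSpace D) (f : Hinf D) => ψ f) '' Points D := by
    refine ⟨hst fun f hf => hεs f ?_, ψ, ⟨z, hψ⟩, rfl⟩
    rw [mem_ball, dist_eq_norm, hψ]
    exact (hcon f (hI.mem_toFinset.2 hf)).trans_le (hle f hf)
  rw [hte] at h4
  exact h4

/-- **The corona theorem holds on `D` if and only if the corona is empty.** -/
theorem coronaTheorem_iff (hD : IsOpen D) : CoronaTheorem D ↔ Corona D = ∅ := by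
  classical
  have := complete_Hinf hD
  constructor
  · intro h
    rw [eq_empty_iff_forall_notMem]
    intro φ hφ
    obtain ⟨I, ε, hε, hI⟩ := exists_finset hD hφ
    -- the data
    let e : Fin I.card ≃ I := I.equivFin.symm
    let g : Fin I.card → Hinf D := fun j => (e j : Hinf D) - algebraMap ℂ _ (φ (e j : Hinf D))
    have hg : ∀ j, φ (g j) = 0 := by
      intro j
      simp only [g]
      rw [map_sub, AlgHomClass.commutes]
      simp
    have hgz : ∀ j (z : D), (g j : D →ᵇ ℂ) z = ((e j : Hinf D) : D →ᵇ ℂ) z - φ (e j : Hinf D) :=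
      fun j z => rfl
    obtain ⟨h', h1, h2⟩ := h I.card (fun j => ex (g j)) (fun j => ⟨ex_diff _, ‖g j‖, fun z _ => ex_le _ z⟩)
      ⟨ε ^ 2 / 2, by positivity, fun z hz => by
        obtain ⟨f, hf, hfz⟩ := hI ⟨z, hz⟩
        have h3 : ε ^ 2 ≤ ‖ex (g (e.symm ⟨f, hf⟩)) z‖ ^ 2 := by
          rw [ex_apply _ hz, hgz, Equiv.apply_symm_apply]
          exact pow_le_pow_left₀ hε.le hfz 2
        have h4 : ‖ex (g (e.symm ⟨f, hf⟩)) z‖ ^ 2 ≤ ∑ j, ‖ex (g j) z‖ ^ 2 :=
          Finset.single_le_sum (f := fun j => ‖ex (g j) z‖ ^ 2) (fun j _ => sq_nonneg _)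
            (Finset.mem_univ _)
        have h5 : 0 < ε ^ 2 := by positivity
        linarith⟩
    have h3 : ∀ j, ∃ k : Hinf D, ∀ z : D, (k : D →ᵇ ℂ) z = h' j z := fun j => by
      obtain ⟨hd, C, hC⟩ := h1 j
      exact exists_mk _ hd hC
    choose k hk using h3
    have h4 : ∑ j, g j * k j = 1 := by
      refine hinf_ext fun z => ?_
      have h5 := h2 z z.2
      simp only [ex_coe] at h5
      have h6 : ((∑ j, g j * k j : Hinf D) : D →ᵇ ℂ) z = ∑ j, (g j : D →ᵇ ℂ) z * h' j z := by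
        rw [AddSubmonoidClass.coe_finsetSum, BoundedContinuousFunction.sum_apply]
        refine Finset.sum_congr rfl fun j _ => ?_
        rw [← hk]
        rfl
      rw [h6, h5]
      rfl
    have h5 := congrArg φ h4
    rw [map_sum, map_one] at h5
    simp [map_mul, hg] at h5
  · intro hC N F hF hδ
    obtain ⟨δ, hδ, hFδ⟩ := hδ
    have h1 : ∀ j, ∃ g : Hinf D, ∀ z : D, (g : D →ᵇ ℂ) z = F j z := fun j => by
      obtain ⟨hd, C, hC⟩ := hF j
      exact exists_mk _ hd hC
    choose g hg using h1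
    have h2 : Ideal.span (Set.range g) = ⊤ := by
      by_contra hne
      obtain ⟨M, hM, hle⟩ := Ideal.exists_le_maximal _ hne
      have h3 : ∀ j, M.toCharacterSpace (g j) = 0 := fun j =>
        M.toCharacterSpace_apply_eq_zero_of_mem (hle (Ideal.subset_span ⟨j, rfl⟩))
      have h4 : M.toCharacterSpace ∈ closure (Points D) := by
        by_contra hcon
        have : M.toCharacterSpace ∈ Corona D := hcon
        rw [hC] at this
        exact this
      have h5 : closure (Points D) ⊆ {ψ : MaxSpace D | δ ≤ ∑ j, ‖ψ (g j)‖ ^ 2} := by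
        refine closure_minimal ?_ ?_
        · rintro ψ ⟨z, hz⟩
          rw [mem_ofPred_eq]
          simp only [hz, hg]
          exact (hFδ z z.2).le
        · refine isClosed_le continuous_const ?_
          refine continuous_finsetSum _ fun j _ => ?_
          exact (map_continuous (WeakDual.gelfandTransform ℂ (Hinf D) (g j))).norm.pow 2
      have h6 := h5 h4
      rw [mem_ofPred_eq] at h6
      simp only [h3] at h6
      simp at h6
      linarith
    have h3 : (1 : Hinf D) ∈ Ideal.span (Set.range g) := h2 ▸ Submodule.mem_top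
    rw [Ideal.mem_span_range_iff_exists_fun] at h3
    obtain ⟨c, hc⟩ := h3
    refine ⟨fun j => ex (c j), fun j => ⟨ex_diff _, ‖c j‖, fun z _ => ex_le _ z⟩, fun z hz => ?_⟩
    have h4 : ((∑ j, c j * g j : Hinf D) : D →ᵇ ℂ) ⟨z, hz⟩ = 1 := by rw [hc]; rfl
    rw [AddSubmonoidClass.coe_finsetSum, BoundedContinuousFunction.sum_apply] at h4
    rw [← h4]
    refine Finset.sum_congr rfl fun j _ => ?_
    change F j z * ex (c j) z = _
    rw [ex_apply _ hz, mul_comm, ← hg j ⟨z, hz⟩]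
    rfl

end Pool.Agent.H272.SS
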