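import Mathlib
import Pool.Agent.H272.SS.Alg
import Pool.Agent.H272.SS.Core

/-!
The retractions `R 𝒰 : H^∞(D) → H^∞(B)` and their dual maps.
-/

set_option autoImplicit false

open Metric Set Filter Topology
open scoped BoundedContinuousFunction

namespace Pool.Agent.H272.SS

variable {m n : ℕ} {D : Set (V m)} {p : V m} {Φ : V m → V n} {P : ℕ → V n → V m}
  {e : Set ℕ → V m → ℂ}

/-- the limit function -/
theorem exists_lim (h : SSim D p Φ P e) {𝒰 : Ultrafilter ℕ} (h𝒰 : (𝒰 : Filter ℕ) ≤ atTop)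
    (g : Hinf D) : ∃ f : Hinf (ball (0 : V n) 1), ∀ ξ : ball (0 : V n) 1,
      Tendsto (fun k => ex g (P k ξ)) 𝒰 (𝓝 ((f : ball (0 : V n) 1 →ᵇ ℂ) ξ)) := by
  classical
  -- pointwise limits
  have h1 : ∀ ξ : V n, ∃ v : ℂ, Tendsto (fun k => ex g (P k ξ)) 𝒰 (𝓝 v) := by
    intro ξ
    have hle : ((𝒰.map (fun k => ex g (P k ξ)) : Ultrafilter ℂ) : Filter ℂ) ≤
        𝓟 (closedBall 0 ‖g‖) := by
      rw [le_principal_iff, Ultrafilter.coe_map, Filter.mem_map]
      refine Filter.mem_of_superset Filter.univ_mem ?_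
      intro k _
      change ex g (P k ξ) ∈ closedBall 0 ‖g‖
      rw [mem_closedBall_zero_iff]
      exact ex_le g _
    obtain ⟨v, -, hv⟩ := (isCompact_closedBall (0 : ℂ) ‖g‖).ultrafilter_le_nhds _ hle
    exact ⟨v, hv⟩
  choose v hv using h1
  have hd : DifferentiableOn ℂ v (ball (0 : V n) 1) := by
    intro ξ hξ
    obtain ⟨s, hs, hsub, hk⟩ := h.mP univ isOpen_univ (mem_univ p) ξ hξ
    obtain ⟨F, hF, -, hFt⟩ := Pool.Agent.H720R2.Cor.ultra_lim (isOpen_ball (x := ξ) (ε := s))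
      (C := ‖g‖) 𝒰 (fun k y => if DifferentiableOn ℂ (P k) (ball ξ s) ∧ ∀ y ∈ ball ξ s, P k y ∈ D ∩ univ
        then ex g (P k y) else 0) (by
          intro k
          by_cases hc : DifferentiableOn ℂ (P k) (ball ξ s) ∧ ∀ y ∈ ball ξ s, P k y ∈ D ∩ univ
          · simp only [if_pos hc]
            exact (ex_diff g).comp hc.1 fun y hy => (hc.2 y hy).1
          · simp only [if_neg hc]
            exact differentiableOn_const _) (by
          intro k y _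
          by_cases hc : DifferentiableOn ℂ (P k) (ball ξ s) ∧ ∀ y ∈ ball ξ s, P k y ∈ D ∩ univ
          · simp only [if_pos hc]
            exact ex_le g _
          · simp only [if_neg hc, norm_zero]
            exact norm_nonneg _)
    have h2 : ∀ y ∈ ball ξ s, v y = F y := by
      intro y hy
      refine tendsto_nhds_unique (hv y) ((hFt y hy).congr' ?_)
      filter_upwards [h𝒰 hk] with k hk'
      rw [if_pos hk']
    have h3 : DifferentiableAt ℂ F ξ := hF.differentiableAt (ball_mem_nhds ξ hs)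
    refine (h3.congr_of_eventuallyEq ?_).differentiableWithinAt
    filter_upwards [ball_mem_nhds ξ hs] with y hy
    exact h2 y hy
  obtain ⟨f, hf⟩ := exists_mk v hd (C := ‖g‖) fun z _ =>
    le_of_tendsto (hv z).norm (Eventually.of_forall fun k => ex_le g _)
  refine ⟨f, fun ξ => ?_⟩
  rw [hf]
  exact hv ξ

theorem P_mem (h : SSim D p Φ P e) (ξ : ball (0 : V n) 1) : ∀ᶠ k in atTop, P k ξ ∈ D := by
  obtain ⟨s, hs, -, hk⟩ := h.mP univ isOpen_univ (mem_univ p) ξ ξ.2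
  filter_upwards [hk] with k hk'
  exact (hk'.2 ξ (mem_ball_self hs)).1

theorem P_tendsto (h : SSim D p Φ P e) (ξ : ball (0 : V n) 1) :
    Tendsto (fun k => P k ξ) atTop (𝓝 p) := by
  intro W hW
  obtain ⟨W', hW', hWo, hp⟩ := _root_.mem_nhds_iff.1 hW
  obtain ⟨s, hs, -, hk⟩ := h.mP W' hWo hp ξ ξ.2
  rw [Filter.mem_map]
  filter_upwards [hk] with k hk'
  exact hW' (hk'.2 ξ (mem_ball_self hs)).2

theorem exists_R (h : SSim D p Φ P e) {𝒰 : Ultrafilter ℕ} (h𝒰 : (𝒰 : Filter ℕ) ≤ atTop) :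
    ∃ R : Hinf D →ₐ[ℂ] Hinf (ball (0 : V n) 1), ∀ (g : Hinf D) (ξ : ball (0 : V n) 1),
      Tendsto (fun k => ex g (P k ξ)) 𝒰 (𝓝 ((R g : ball (0 : V n) 1 →ᵇ ℂ) ξ)) := by
  choose R hR using exists_lim h h𝒰
  have hev : ∀ ξ : ball (0 : V n) 1, ∀ᶠ k in (𝒰 : Filter ℕ), P k ξ ∈ D := fun ξ => h𝒰 (P_mem h ξ)
  have huniq : ∀ (f f' : Hinf (ball (0 : V n) 1)), (∀ ξ : ball (0 : V n) 1,
      ∃ u : ℕ → ℂ, Tendsto u 𝒰 (𝓝 ((f : ball (0 : V n) 1 →ᵇ ℂ) ξ)) ∧
        Tendsto u 𝒰 (𝓝 ((f' : ball (0 : V n) 1 →ᵇ ℂ) ξ))) → f = f' := by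
    intro f f' hff
    refine hinf_ext fun ξ => ?_
    obtain ⟨u, h1, h2⟩ := hff ξ
    exact tendsto_nhds_unique h1 h2
  refine ⟨
    { toFun := R
      map_one' := huniq _ _ fun ξ => ⟨_, hR 1 ξ, ?_⟩
      map_mul' := fun f g => huniq _ _ fun ξ => ⟨_, hR (f * g) ξ, ?_⟩
      map_zero' := huniq _ _ fun ξ => ⟨_, hR 0 ξ, ?_⟩
      map_add' := fun f g => huniq _ _ fun ξ => ⟨_, hR (f + g) ξ, ?_⟩
      commutes' := fun c => huniq _ _ fun ξ => ⟨_, hR (algebraMap ℂ _ c) ξ, ?_⟩ }, hR⟩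
  · refine (tendsto_const_nhds (x := (1 : ℂ))).congr' ?_
    filter_upwards [hev ξ] with k hk
    rw [ex_apply _ hk]
    rfl
  · refine ((hR f ξ).mul (hR g ξ)).congr' ?_
    filter_upwards [hev ξ] with k hk
    rw [ex_apply _ hk, ex_apply _ hk, ex_apply _ hk]
    rfl
  · refine (tendsto_const_nhds (x := (0 : ℂ))).congr' ?_
    filter_upwards [hev ξ] with k hk
    rw [ex_apply _ hk]
    rfl
  · refine ((hR f ξ).add (hR g ξ)).congr' ?_
    filter_upwards [hev ξ] with k hk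
    rw [ex_apply _ hk, ex_apply _ hk, ex_apply _ hk]
    rfl
  · refine (tendsto_const_nhds (x := c)).congr' ?_
    filter_upwards [hev ξ] with k hk
    rw [ex_apply _ hk]
    rfl

end Pool.Agent.H272.SS
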