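import Mathlib
import Pool.Agent.H272.SS.Retract

/-!
Properties of the retractions and of their dual maps.
-/

set_option autoImplicit false

open Metric Set Filter Topology
open scoped BoundedContinuousFunction

namespace Pool.Agent.H272.SS

variable {m n : ℕ} {D : Set (V m)} {p : V m} {Φ : V m → V n} {P : ℕ → V n → V m}
  {e : Set ℕ → V m → ℂ}

/-- `R` is the limit along `𝒰` -/
def IsR (P : ℕ → V n → V m) (𝒰 : Ultrafilter ℕ)
    (R : Hinf D →ₐ[ℂ] Hinf (ball (0 : V n) 1)) : Prop :=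
  ∀ (g : Hinf D) (ξ : ball (0 : V n) 1),
      Tendsto (fun k => ex g (P k ξ)) 𝒰 (𝓝 ((R g : ball (0 : V n) 1 →ᵇ ℂ) ξ))

theorem IsR.norm_le {𝒰 : Ultrafilter ℕ} {R : Hinf D →ₐ[ℂ] Hinf (ball (0 : V n) 1)}
    (hR : IsR P 𝒰 R) (g : Hinf D) : ‖R g‖ ≤ ‖g‖ :=
  norm_le_of _ (norm_nonneg _) fun ξ =>
    le_of_tendsto (hR g ξ).norm (Eventually.of_forall fun _ => ex_le g _)

theorem IsR.comp {𝒰 : Ultrafilter ℕ} {R : Hinf D →ₐ[ℂ] Hinf (ball (0 : V n) 1)}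
    (hR : IsR P 𝒰 R) (h : SSim D p Φ P e) (h𝒰 : (𝒰 : Filter ℕ) ≤ atTop)
    {S : Hinf (ball (0 : V n) 1) →ₐ[ℂ] Hinf D}
    (hS : ∀ (f : Hinf (ball (0 : V n) 1)) (z : D),
      (S f : D →ᵇ ℂ) z = (f : ball (0 : V n) 1 →ᵇ ℂ) ⟨Φ z, h.mΦ z.2⟩)
    (f : Hinf (ball (0 : V n) 1)) : R (S f) = f := by
  refine hinf_ext fun ξ => tendsto_nhds_unique (hR (S f) ξ) ?_
  have h1 : Tendsto (fun k => ex f (Φ (P k ξ))) 𝒰 (𝓝 (ex f ξ)) :=
    ((((ex_diff f).differentiableAt (isOpen_ball.mem_nhds ξ.2)).continuousAt.tendsto).comp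
      (h.ΦP ξ ξ.2)).mono_left h𝒰
  rw [ex_coe] at h1
  refine h1.congr' ?_
  filter_upwards [h𝒰 (P_mem h ξ)] with k hk
  rw [ex_apply (S f) hk, hS, ex_apply f (h.mΦ hk)]

theorem IsR.const {𝒰 : Ultrafilter ℕ} {R : Hinf D →ₐ[ℂ] Hinf (ball (0 : V n) 1)}
    (hR : IsR P 𝒰 R) (h : SSim D p Φ P e) (h𝒰 : (𝒰 : Filter ℕ) ≤ atTop) {g : Hinf D} {c : ℂ}
    (hg : Tendsto (g : D →ᵇ ℂ) (comap Subtype.val (𝓝 p)) (𝓝 c)) :
    R g = algebraMap ℂ _ c := by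
  refine hinf_ext fun ξ => tendsto_nhds_unique (hR g ξ) ?_
  change Tendsto (fun k => ex g (P k ξ)) 𝒰 (𝓝 c)
  intro t ht
  obtain ⟨W, hW, hWt⟩ := Filter.mem_comap.1 (hg ht)
  rw [Filter.mem_map]
  filter_upwards [h𝒰 (P_mem h ξ), h𝒰 ((P_tendsto h ξ) hW)] with k hk hkW
  change ex g (P k ξ) ∈ t
  rw [ex_apply g hk]
  exact hWt (show (⟨P k ξ, hk⟩ : D) ∈ Subtype.val ⁻¹' W from hkW)

/-- the functions which separate the ultrafilters -/
theorem IsR.sep {𝒰 : Ultrafilter ℕ} {R : Hinf D →ₐ[ℂ] Hinf (ball (0 : V n) 1)}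
    (hR : IsR P 𝒰 R) (h : SSim D p Φ P e) (h𝒰 : (𝒰 : Filter ℕ) ≤ atTop) {A : Set ℕ} {g : Hinf D}
    (hg : ∀ z : D, (g : D →ᵇ ℂ) z = e A z) :
    (A ∈ 𝒰 → R g = 1) ∧ (A ∉ 𝒰 → R g = 0) := by
  have key : ∀ c : ℂ, (∀ᶠ k in (𝒰 : Filter ℕ), A.indicator (fun _ => (1 : ℂ)) k = c) →
      R g = algebraMap ℂ _ c := by
    intro c hc
    refine hinf_ext fun ξ => tendsto_nhds_unique (hR g ξ) ?_
    change Tendsto (fun k => ex g (P k ξ)) 𝒰 (𝓝 c)
    have h1 := ((h.eP A ξ ξ.2).mono_left h𝒰).add_const c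
    rw [zero_add] at h1
    refine h1.congr' ?_
    filter_upwards [h𝒰 (P_mem h ξ), hc] with k hk hkc
    rw [ex_apply g hk, hg, hkc]
    ring
  constructor
  · intro hA
    rw [key 1, map_one]
    filter_upwards [hA] with k hk
    exact indicator_of_mem hk _
  · intro hA
    rw [key 0, map_zero]
    filter_upwards [Ultrafilter.compl_mem_iff_notMem.2 hA] with k hk
    exact indicator_of_notMem hk _

/-- the dual map respects the closures of the domains -/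
theorem IsR.closure (hD : IsOpen D) {𝒰 : Ultrafilter ℕ}
    {R : Hinf D →ₐ[ℂ] Hinf (ball (0 : V n) 1)}
    (hR : IsR P 𝒰 R) (h : SSim D p Φ P e) (h𝒰 : (𝒰 : Filter ℕ) ≤ atTop)
    {T : MaxSpace (ball (0 : V n) 1) → MaxSpace D} (hT : Continuous T)
    (hTR : ∀ φ g, T φ g = φ (R g)) (φ : MaxSpace (ball (0 : V n) 1)) :
    T φ ∈ Corona D ↔ φ ∈ Corona (ball (0 : V n) 1) := by
  have := complete_Hinf hD
  have := complete_Hinf (isOpen_ball (x := (0 : V n)) (ε := 1))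
  rw [Corona, Corona, mem_compl_iff, mem_compl_iff, not_iff_not]
  constructor
  · intro hφ
    obtain ⟨S, hS⟩ := exists_comp h.dΦ h.mΦ
    obtain ⟨S', hS'c, hS'⟩ := exists_dual S
    have h1 : S' (T φ) = φ := by
      refine WeakDual.CharacterSpace.ext fun f => ?_
      rw [hS', hTR, hR.comp h h𝒰 hS]
    have h2 : S' (T φ) ∈ _root_.closure (S' '' Points D) :=
      image_closure_subset_closure_image hS'c ⟨_, hφ, rfl⟩
    rw [h1] at h2
    refine closure_mono ?_ h2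
    rintro _ ⟨ψ, ⟨z, hz⟩, rfl⟩
    refine ⟨⟨Φ z, h.mΦ z.2⟩, fun f => ?_⟩
    rw [hS', hz, hS]
  · intro hφ
    have h2 : T φ ∈ _root_.closure (T '' Points (ball (0 : V n) 1)) :=
      image_closure_subset_closure_image hT ⟨_, hφ, rfl⟩
    refine closure_minimal ?_ isClosed_closure h2
    rintro _ ⟨ψ, ⟨ξ, hξ⟩, rfl⟩
    -- `T ψ` is the limit of the points `P k ξ`
    choose ev hev using exists_ev hD
    obtain ⟨k₀, hk₀⟩ := (P_mem h ξ).exists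
    classical
    let x : ℕ → D := fun k => if hk : P k ξ ∈ D then ⟨P k ξ, hk⟩ else ⟨P k₀ ξ, hk₀⟩
    refine mem_closure_of_tendsto (b := (𝒰 : Filter ℕ)) (f := fun k => ev (x k)) ?_
      (Eventually.of_forall fun k => ⟨x k, fun f => hev _ f⟩)
    have h3 : Tendsto (fun k => ((ev (x k) : MaxSpace D) : WeakDual ℂ (Hinf D))) 𝒰
        (𝓝 ((T ψ : MaxSpace D) : WeakDual ℂ (Hinf D))) := by
      rw [tendsto_iff_forall_eval_tendsto_topDualPairing]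
      intro g
      change Tendsto (fun k => ev (x k) g) 𝒰 (𝓝 (T ψ g))
      rw [hTR, hξ]
      refine (hR g ξ).congr' ?_
      filter_upwards [h𝒰 (P_mem h ξ)] with k hk
      rw [hev, ex_apply g hk]
      simp only [x, dif_pos hk]
    exact tendsto_subtype_rng.2 h3

end Pool.Agent.H272.SS
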