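import Mathlib
import Pool.Graph.R_seed8.Y986.GL.Card
import Pool.Agent.H272.SS.Prop
import Pool.Agent.H272.SS.Exp
import Pool.Agent.H272.SS.Gelf

/-!
Assembly: the copies of the maximal ideal space of the ball, and the cardinality of the corona.
-/

set_option autoImplicit false

open Metric Set Filter Topology Cardinal
open scoped BoundedContinuousFunction

namespace Pool.Agent.H272.SS

variable {m n : ℕ} {D : Set (V m)} {p : V m}

theorem card_Hinf (hne : D.Nonempty) : #(Hinf D) ≤ 𝔠 := by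
  have hne' : Nonempty D := hne.to_subtype
  have hinj : Function.Injective fun (f : Hinf D) (n : ℕ) =>
      (f : D →ᵇ ℂ) (TopologicalSpace.denseSeq D n) := by
    intro f g h
    apply Subtype.ext
    apply DFunLike.coe_injective
    refine DenseRange.equalizer (TopologicalSpace.denseRange_denseSeq D)
      (f : D →ᵇ ℂ).continuous (g : D →ᵇ ℂ).continuous ?_
    funext n
    exact congrFun h n
  have h1 := Cardinal.mk_le_of_injective hinj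
  have h2 : #(ℕ → ℂ) = 𝔠 := by
    rw [← Cardinal.power_def, Cardinal.mk_complex, Cardinal.mk_nat,
      Cardinal.continuum_power_aleph0]
  rwa [h2] at h1

theorem card_MaxSpace_le (hne : D.Nonempty) : #(MaxSpace D) ≤ 2 ^ (2 ^ ℵ₀ : Cardinal.{0}) := by
  have h1 : #(MaxSpace D) ≤ #(Hinf D → ℂ) :=
    Cardinal.mk_le_of_injective (f := fun (φ : MaxSpace D) (f : Hinf D) => φ f)
      (fun a b h => WeakDual.CharacterSpace.ext fun f => congrFun h f)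
  refine h1.trans ?_
  rw [← Cardinal.power_def, Cardinal.mk_complex]
  refine (Cardinal.power_le_power_left Cardinal.continuum_ne_zero (card_Hinf hne)).trans ?_
  rw [Cardinal.power_self_eq Cardinal.aleph0_le_continuum, Cardinal.two_power_aleph0]

theorem free_le (𝒰 : Free) : ((𝒰.1 : Ultrafilter ℕ) : Filter ℕ) ≤ atTop := by
  rw [← Nat.cofinite_eq_atTop]
  exact 𝒰.2

theorem card_Free : (2 : Cardinal.{0}) ^ ((2 : Cardinal.{0}) ^ ℵ₀) ≤ #Free := by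
  refine Pool.Agent.Y986.GL.card_NP.trans ?_
  have h : ∀ q : Pool.Agent.Y986.GL.NP, (q.1 : Filter ℕ) ≤ cofinite := by
    intro q
    rw [Filter.le_cofinite_iff_compl_singleton_mem]
    exact q.2
  refine Cardinal.mk_le_of_injective (f := fun q : Pool.Agent.Y986.GL.NP => (⟨q.1, h q⟩ : Free)) ?_
  intro a b hab
  have h1 : a.1 = b.1 := congrArg (fun x : Free => x.1) hab
  exact Subtype.ext h1

/-- The copies. -/
theorem copies (hD : IsOpen D) {Φ : V m → V n} {P : ℕ → V n → V m} {e : Set ℕ → V m → ℂ}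
    (h : SSim D p Φ P e) :
    ∃ (R : Free → Hinf D →ₐ[ℂ] Hinf (ball (0 : V n) 1))
      (T : Free → MaxSpace (ball (0 : V n) 1) → MaxSpace D),
      (∀ 𝒰 g, ‖R 𝒰 g‖ ≤ ‖g‖) ∧
      (∀ 𝒰 (f : Hinf (ball (0 : V n) 1)) (g : Hinf D), (∀ z : D, ∃ hz : Φ z ∈ ball (0 : V n) 1,
        (g : D →ᵇ ℂ) z = (f : ball (0 : V n) 1 →ᵇ ℂ) ⟨Φ z, hz⟩) → R 𝒰 g = f) ∧
      (∀ 𝒰 φ g, T 𝒰 φ g = φ (R 𝒰 g)) ∧
      (∀ 𝒰, IsClosedEmbedding (T 𝒰)) ∧
      (∀ 𝒰 φ, T 𝒰 φ ∈ Fibre D p ∧ (T 𝒰 φ ∈ Corona D ↔ φ ∈ Corona (ball (0 : V n) 1))) ∧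
      (∀ 𝒰 𝒱, 𝒰 ≠ 𝒱 → Disjoint (range (T 𝒰)) (range (T 𝒱))) := by
  have := complete_Hinf hD
  have := complete_Hinf (isOpen_ball (x := (0 : V n)) (ε := 1))
  have h1 : ∀ 𝒰 : Free, ∃ R : Hinf D →ₐ[ℂ] Hinf (ball (0 : V n) 1), IsR P 𝒰.1 R := fun 𝒰 =>
    exists_R h (free_le 𝒰)
  choose R hR using h1
  have h2 : ∀ 𝒰 : Free, ∃ T : MaxSpace (ball (0 : V n) 1) → MaxSpace D, Continuous T ∧
      ∀ φ a, T φ a = φ (R 𝒰 a) := fun 𝒰 => exists_dual (R 𝒰)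
  choose T hTc hT using h2
  obtain ⟨S, hS⟩ := exists_comp h.dΦ h.mΦ
  have hRS : ∀ 𝒰 (f : Hinf (ball (0 : V n) 1)), R 𝒰 (S f) = f := fun 𝒰 f =>
    (hR 𝒰).comp h (free_le 𝒰) hS f
  refine ⟨R, T, fun 𝒰 g => (hR 𝒰).norm_le g, ?_, hT, fun 𝒰 => ?_, fun 𝒰 φ => ⟨?_, ?_⟩, ?_⟩
  · intro 𝒰 f g hg
    have h3 : g = S f := hinf_ext fun z => by
      obtain ⟨hz, h4⟩ := hg z
      rw [h4, hS]
    rw [h3, hRS]
  · refine (hTc 𝒰).isClosedEmbedding ?_
    intro φ ψ hφψ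
    refine WeakDual.CharacterSpace.ext fun f => ?_
    rw [← hRS 𝒰 f, ← hT, ← hT, hφψ]
  · intro f c hf
    rw [hT, (hR 𝒰).const h (free_le 𝒰) hf, AlgHomClass.commutes]
    rfl
  · exact (hR 𝒰).closure hD h (free_le 𝒰) (hTc 𝒰) (hT 𝒰) φ
  · intro 𝒰 𝒱 hne
    rw [Set.disjoint_left]
    rintro _ ⟨φ, rfl⟩ ⟨ψ, hψ⟩
    obtain ⟨A, hA, hA'⟩ : ∃ A : Set ℕ, A ∈ 𝒰.1 ∧ A ∉ 𝒱.1 := by
      by_contra hcon
      push Not at hcon
      apply hne
      apply Subtype.ext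
      refine (Ultrafilter.coe_le_coe.1 ?_).symm
      exact fun A hA => hcon A hA
    obtain ⟨g, hg⟩ := exists_mk (D := D) (e A) (h.de A) (h.be A)
    have h3 := ((hR 𝒰).sep h (free_le 𝒰) hg).1 hA
    have h4 := ((hR 𝒱).sep h (free_le 𝒱) hg).2 hA'
    have h5 : T 𝒰 φ g = T 𝒱 ψ g := by rw [hψ]
    rw [hT, hT, h3, h4, map_one, map_zero] at h5
    exact one_ne_zero h5

end Pool.Agent.H272.SS
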